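import Pool.Agent.Helper51.CX.St

set_option autoImplicit false

/-!
# Project CX (MP_a41ee4_co), module APP.
-/

namespace Pool.Agent.Helper2.CX

open Pool.Agent.Helper51.CX

section

variable {K : Type} [Field K] [LinearOrder K] [IsStrictOrderedRing K]

/-- The narrow part of a row is small. -/
theorem small_part (k : ℕ) (hk : k < 64) (d : Fin 6 → K) :
    |(la k : K) * (10 ^ 20 * pp k d - el k d)| ≤ 189 * 10 ^ 20 * nn d + 3 * mm d := by
  obtain ⟨p1, -, p3⟩ := pwe_le (K := K) k hk d
  obtain ⟨-, -, -, -, -, -, -, b8, b9⟩ := bds (K := K) k hk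
  have h1 : |10 ^ 20 * pp k d - el k d| ≤ 63 * 10 ^ 20 * nn d + mm d := by
    have h2 := abs_sub (10 ^ 20 * pp k d) (el k d)
    have h3 : |10 ^ 20 * pp k d| = 10 ^ 20 * |pp k d| := by
      rw [abs_mul, abs_of_pos (by positivity)]
    rw [h3] at h2
    linarith
  rw [abs_mul, abs_of_nonneg b8]
  have h4 := mul_le_mul b9 h1 (abs_nonneg _) (by norm_num : (0 : K) ≤ 3)
  linarith

/-- Two rows equal at `d`. -/
theorem app_row (j : ℕ) (hj : j < 64) (k : ℕ) (hk : k < 64) (d : Fin 6 → K) (h : L k d = L j d) :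
    10 ^ 35 * |(vx j k : K) * d 0 + (vy j k : K) * d 1| ≤ 10 ^ 20 * nn d + mm d := by
  have n0 := nn_nonneg d
  have m0 := mm_nonneg d
  have e := L_sub (K := K) j k (by omega) d
  have s1 := small_part j hj d
  have s2 := small_part k hk d
  rw [h, sub_self] at e
  have e2 : 10 ^ 40 * |(vx j k : K) * d 0 + (vy j k : K) * d 1| =
      |(la k : K) * (10 ^ 20 * pp k d - el k d) - (la j : K) * (10 ^ 20 * pp j d - el j d)| := by
    rw [← abs_of_pos (show (0 : K) < 10 ^ 40 by positivity), ← abs_mul]
    congr 1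
    linarith
  have e3 := abs_sub ((la k : K) * (10 ^ 20 * pp k d - el k d)) ((la j : K) * (10 ^ 20 * pp j d - el j d))
  linarith

end

theorem hAPP : StAPP := by
  intro K _ _ _ j hj1 hj2 k hk hkj d h
  by_cases hk2 : k < 64
  · refine app_row j hj2 k hk2 d ?_
    rcases h with h | h
    · exact h.2
    · rw [h.1]
      exact (Mem_lt hk2 d).1 h.2
  · have h' : L j d = 0 ∧ Mem k d := by
      rcases h with h | h
      · exact absurd h.1 hk2
      · exact h
    obtain ⟨h1, h2⟩ := h'
    have n0 := nn_nonneg d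
    have m0 := mm_nonneg d
    have s1 := small_part j hj2 d
    obtain ⟨b1, b2, -⟩ := bds (K := K) j hj2
    have eL : 10 ^ 60 * d 5 + 10 ^ 40 * ((qx j : K) * d 0 + (qy j : K) * d 1) +
        (la j : K) * (10 ^ 20 * pp j d - el j d) = 0 := by
      rw [← h1]
      simp only [L, pp, el]
    have hk3 : k = 64 ∨ k = 65 := by omega
    rcases hk3 with rfl | rfl
    · have d5 := (Mem_64 d).1 h2
      have v1' : vx j 64 = qx j := by
        have : qx 64 = 0 := by decide
        simp [vx, this]
      have v2' : vy j 64 = qy j := by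
        have : qy 64 = 0 := by decide
        simp [vy, this]
      rw [v1', v2']
      rw [d5] at eL
      have e2 : 10 ^ 40 * |(qx j : K) * d 0 + (qy j : K) * d 1| =
          |(la j : K) * (10 ^ 20 * pp j d - el j d)| := by
        rw [← abs_neg ((la j : K) * (10 ^ 20 * pp j d - el j d)),
          ← abs_of_pos (show (0 : K) < 10 ^ 40 by positivity), ← abs_mul]
        congr 1
        linarith
      linarith
    · have d5 := (Mem_65 d).1 h2
      have v1' : vx j 65 = 1 := by simp [vx]
      have v2' : vy j 65 = 0 := by simp [vy]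
      rw [v1', v2']
      have e1 : |(qx j : K) * d 0 + (qy j : K) * d 1| ≤ 1707 * nn d := by
        have a1 := abs_add_le ((qx j : K) * d 0) ((qy j : K) * d 1)
        rw [abs_mul, abs_mul] at a1
        have a2 := mul_le_mul_of_nonneg_right b1 (abs_nonneg (d 0))
        have a3 := mul_le_mul_of_nonneg_right b2 (abs_nonneg (d 1))
        simp only [nn]
        linarith
      have e2 : 10 ^ 60 * |d 5| = |10 ^ 40 * ((qx j : K) * d 0 + (qy j : K) * d 1) +
          (la j : K) * (10 ^ 20 * pp j d - el j d)| := by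
        rw [← abs_neg (10 ^ 40 * ((qx j : K) * d 0 + (qy j : K) * d 1) + (la j : K) * (10 ^ 20 * pp j d - el j d)),
          ← abs_of_pos (show (0 : K) < 10 ^ 60 by positivity), ← abs_mul]
        congr 1
        linarith
      have e3 := abs_add_le (10 ^ 40 * ((qx j : K) * d 0 + (qy j : K) * d 1))
        ((la j : K) * (10 ^ 20 * pp j d - el j d))
      have e4 : |(10 : K) ^ 40 * ((qx j : K) * d 0 + (qy j : K) * d 1)| =
          10 ^ 40 * |(qx j : K) * d 0 + (qy j : K) * d 1| := by
        rw [abs_mul, abs_of_pos (show (0 : K) < 10 ^ 40 by positivity)]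
      rw [e4] at e3
      have e5 : |((1 : ℤ) : K) * d 0 + ((0 : ℤ) : K) * d 1| = 50 * |d 5| := by
        rw [← d5]
        simp
      rw [e5]
      linarith

end Pool.Agent.Helper2.CX
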