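import Pool.Agent.Helper51.CX.St

set_option autoImplicit false

/-!
# Project CX (MP_a41ee4_co), module B1M.
-/

namespace Pool.Agent.Helper2.CX

open Pool.Agent.Helper51.CX

theorem hB1M (hTRA : StTRA) (hBDP : StBDP) (hBDD : StBDD) : StB1M := by
  intro K _ _ _ j z d hS hF hL hp k hk hkj hM
  have hj1 := hS.lo
  have hj2 := hS.hi
  -- values at z
  have s := sgn (K := K) j hj1 hj2
  have vsq : (v1 j : K) * (v1 j : K) = 1 ∧ (v2 j : K) * (v2 j : K) = 1 ∧ (v3 j : K) * (v3 j : K) = 1 := by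
    obtain ⟨-, a, b, c, -⟩ := s
    refine ⟨?_, ?_, ?_⟩
    · rcases a with a | a <;> rw [a] <;> norm_num
    · rcases b with a | a <;> rw [a] <;> norm_num
    · rcases c with a | a <;> rw [a] <;> norm_num
  have pz : pp j z = z 5 * FF K j := by
    simp only [pp, FF, hS.e0, hS.e1]; ring
  have wz : ww j z = 0 := by
    simp only [ww, hS.e0, hS.e1]; ring
  have ez : el j z = 3 * z 5 := by
    have : el j z = z 5 * ((v1 j : K) * (v1 j : K) + (v2 j : K) * (v2 j : K) + (v3 j : K) * (v3 j : K)) := by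
      simp only [el, hS.e2, hS.e3, hS.e4]; ring
    rw [this, vsq.1, vsq.2.1, vsq.2.2]; ring
  have hL' : L j (z + d) = 10 ^ 60 := by rw [L_add, hS.tj, hL, add_zero]
  obtain ⟨a1, a2, a3, -, -, -, F1, F2, -, -, -⟩ := hBDP K j hj1 hj2 z hS.fe hS.tj
  obtain ⟨c1, c2, c3, -, -, c6, -, -, c9, -, -⟩ := hBDP K j hj1 hj2 (z + d) hF hL'
  obtain ⟨-, g1, g2, -, -, -, q7, -, -⟩ := hBDD K j hj1 hj2 d
  have n1 := nn_le z d
  have m1 := mm_le z d
  have z5 : 10 ^ 14 * (1 - z 5) ≤ 1 ∧ 10 ^ 14 * (z 5 - 1) ≤ 1 := by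
    have h1 := le_abs_self (z 5 - 1)
    have h2 := neg_abs_le (z 5 - 1)
    constructor <;> linarith
  have z5' : 10 ^ 14 * (1 - (z + d) 5) ≤ 1 ∧ 10 ^ 14 * ((z + d) 5 - 1) ≤ 1 := by
    have h1 := le_abs_self ((z + d) 5 - 1)
    have h2 := neg_abs_le ((z + d) 5 - 1)
    constructor <;> linarith
  have md : mm d ≤ 7 := by linarith [z5.2, z5'.2]
  have pd : pp j d = pp j (z + d) - z 5 * FF K j := by rw [pp_add, pz]; ring
  have wd : ww j (z + d) = ww j d := by rw [ww_add, wz, zero_add]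
  -- pp d is very negative
  have pneg : 10000 * pp j d ≤ -(5099 * FF K j) := by
    have h1 : 0 ≤ (10 ^ 14 * (z 5 - 1) + 1) * FF K j := by
      apply mul_nonneg
      · linarith [z5.1]
      · linarith
    have h2 : (10 ^ 14 * (z 5 - 1) + 1) * FF K j = 10 ^ 14 * (z 5 * FF K j) - 10 ^ 14 * FF K j + FF K j := by ring
    rw [h2] at h1
    linarith
  have habs : 10000 * |pp j d| ≥ 5099 * FF K j := by
    have := neg_abs_le (pp j d)
    linarith
  have ew : |el j (z + d)| ≤ 4 := by linarith [z5'.2]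
  have ew' := neg_abs_le (el j (z + d))
  have wle : 10 ^ 40 * |ww j d| ≤ 10 ^ 20 * (49 / 100 * FF K j) + 4 := by
    rw [wd] at c9
    linarith
  have wnn := abs_nonneg (ww j d)
  by_cases hA : k = ga j
  · have hg : ga j < 64 := by unfold ga; omega
    have hLk : L (ga j) d = 0 := by
      rw [hA] at hM
      exact (Mem_lt hg d).1 hM
    have h1 := g1 hL hLk
    have h2 := abs_sub_abs_le_abs_sub (10 ^ 20 * pp j d) (el j d)
    have h3 : |10 ^ 20 * pp j d| = 10 ^ 20 * |pp j d| := by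
      rw [abs_mul, abs_of_pos (show (0 : K) < 10 ^ 20 by positivity)]
    rw [h3] at h2
    linarith
  · by_cases hB : k = gb j
    · have hg : gb j < 64 := by unfold gb; omega
      have hLk : L (gb j) d = 0 := by
        rw [hB] at hM
        exact (Mem_lt hg d).1 hM
      have h1 := g2 hL hLk
      have h2 := abs_sub_abs_le_abs_sub (10 ^ 20 * pp j d) (el j d)
      have h3 : |10 ^ 20 * pp j d| = 10 ^ 20 * |pp j d| := by
        rw [abs_mul, abs_of_pos (show (0 : K) < 10 ^ 20 by positivity)]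
      rw [h3] at h2
      linarith
    · have h1 := hTRA K j hj1 hj2 k hk hkj hA hB d (Or.inr ⟨hL, hM⟩)
      linarith

end Pool.Agent.Helper2.CX
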